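import Pool.Agent.Results.MP_98d06d_al.SupInfPreservingEmbedding

/-!
Essential order-embeddings of a partially ordered group `G` in lattice-ordered groups preserve all
existing suprema and infima, and every order-embedding of `G` in a lattice-ordered group `L` can be
turned into an essential one by passing to a homomorphic image of the lattice-ordered subgroup of `L`
generated by the image of `G`. So embeddings which preserve all existing suprema and infima can be
found inside every equational class of lattice-ordered groups in which `G` order-embeds.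
-/

namespace Pool.Agent.Results.MP_98d06d_al.EssentialEmbeddings

open Pool.Agent.Results.MP_98d06d_al.SupInfPreservingEmbedding

universe u

section Defs

variable {G : Type u} [Group G] [PartialOrder G] {H : Type u} [Group H] [Lattice H]

/-- `ψ` is an order-embedding. -/
def IsEmb (ψ : G →* H) : Prop := ∀ a b : G, ψ a ≤ ψ b ↔ a ≤ b

/-- `ψ` preserves all existing suprema and infima. -/
def Preserves (ψ : G →* H) : Prop :=
  (∀ (S : Set G) (s : G), IsLUB S s → IsLUB (ψ '' S) (ψ s)) ∧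
    (∀ (S : Set G) (s : G), IsGLB S s → IsGLB (ψ '' S) (ψ s))

/-- `θ` is a homomorphism of lattice-ordered groups. -/
def IsLHom {H K : Type u} [Group H] [Lattice H] [Group K] [Lattice K] (θ : H →* K) : Prop :=
  ∀ a b : H, θ (a ⊔ b) = θ a ⊔ θ b ∧ θ (a ⊓ b) = θ a ⊓ θ b

/-- `ψ` is essential: a homomorphism `θ` of lattice-ordered groups defined on `H` is injective as
soon as `θ ∘ ψ` is an order-embedding. -/
def Essential (ψ : G →* H) : Prop :=
  ∀ (K : Type u) [Group K] [Lattice K] [MulLeftMono K] [MulRightMono K] (θ : H →* K),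
    IsLHom θ → IsEmb (θ.comp ψ) → Function.Injective θ

/-- `H` is generated, as a lattice-ordered group, by the image of `ψ`. -/
def Generates (ψ : G →* H) : Prop :=
  ∀ T : Subgroup H, (∀ a ∈ T, ∀ b ∈ T, a ⊔ b ∈ T) → (∀ g, ψ g ∈ T) → T = ⊤

/-- `ψ` is an essential order-embedding, its image generates, and it preserves all existing suprema
and infima. -/
def Tight (ψ : G →* H) : Prop := IsEmb ψ ∧ Essential ψ ∧ Generates ψ ∧ Preserves ψ

/-- `T` is the lattice-ordered subgroup generated by the image of `φ`. -/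
def IsLSpan (φ : G →* H) (T : Subgroup H) : Prop :=
  (∀ a ∈ T, ∀ b ∈ T, a ⊔ b ∈ T) ∧ (∀ g, φ g ∈ T) ∧
    ∀ T' : Subgroup H, (∀ a ∈ T', ∀ b ∈ T', a ⊔ b ∈ T') → (∀ g, φ g ∈ T') → T ≤ T'

/-- Terms in the operations of lattice-ordered groups. -/
inductive LTerm : Type
  | var (n : ℕ) : LTerm
  | one : LTerm
  | mul (s t : LTerm) : LTerm
  | inv (s : LTerm) : LTerm
  | sup (s t : LTerm) : LTerm
  | inf (s t : LTerm) : LTerm

/-- The value of a term. -/
def LTerm.eval {L : Type u} [Group L] [Lattice L] (x : ℕ → L) : LTerm → L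
  | .var n => x n
  | .one => 1
  | .mul s t => s.eval x * t.eval x
  | .inv s => (s.eval x)⁻¹
  | .sup s t => s.eval x ⊔ t.eval x
  | .inf s t => s.eval x ⊓ t.eval x

/-- The identity `s = t` holds in `L`. -/
def Satisfies (L : Type u) [Group L] [Lattice L] (s t : LTerm) : Prop :=
  ∀ x : ℕ → L, s.eval x = t.eval x

/-- A total order invariant under multiplication on both sides. -/
structure IsBiOrder {G : Type u} [Group G] (r : G → G → Prop) : Prop where
  right : IsRightOrder r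
  mul_left : ∀ a b c, r a b → r (c * a) (c * b)

end Defs

/-! ### Quotients -/

section Quotients

variable {L : Type u} [Group L] [Lattice L] [MulLeftMono L] [MulRightMono L] {J : Subgroup L}

theorem normal_of (hJ : IsLIdeal J) : J.Normal := ⟨fun n hn g => by
    have := hJ.conj n g⁻¹ hn
    rwa [inv_inv] at this⟩

/-- The quotient by an `ℓ`-ideal. -/
def Quo (_ : IsLIdeal J) : Type u := L ⧸ J

noncomputable instance (hJ : IsLIdeal J) : Group (Quo hJ) :=
  haveI := normal_of hJ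
  inferInstanceAs (Group (L ⧸ J))

noncomputable instance (hJ : IsLIdeal J) : Lattice (Quo hJ) := qLattice hJ

/-- The projection. -/
noncomputable def proj (hJ : IsLIdeal J) : L →* Quo hJ :=
  haveI := normal_of hJ
  QuotientGroup.mk' J

theorem proj_surj (hJ : IsLIdeal J) : Function.Surjective (proj hJ) := by
  haveI := normal_of hJ
  exact QuotientGroup.mk'_surjective J

theorem proj_le (hJ : IsLIdeal J) (a b : L) : proj hJ a ≤ proj hJ b ↔ ∃ j ∈ J, a ≤ b * j :=
  qle_mk J a b

theorem proj_eq_one (hJ : IsLIdeal J) (a : L) : proj hJ a = 1 ↔ a ∈ J := by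
  haveI := normal_of hJ
  exact QuotientGroup.eq_one_iff a

instance (hJ : IsLIdeal J) : MulLeftMono (Quo hJ) := ⟨fun z x y h => by
  obtain ⟨a, rfl⟩ := proj_surj hJ x
  obtain ⟨b, rfl⟩ := proj_surj hJ y
  obtain ⟨c, rfl⟩ := proj_surj hJ z
  obtain ⟨j, hj, h⟩ := (proj_le hJ a b).1 h
  change proj hJ c * proj hJ a ≤ proj hJ c * proj hJ b
  rw [← map_mul, ← map_mul, proj_le]
  refine ⟨j, hj, ?_⟩
  rw [mul_assoc]
  exact mul_le_mul_right h c⟩

instance (hJ : IsLIdeal J) : MulRightMono (Quo hJ) := ⟨fun z x y h => by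
  obtain ⟨a, rfl⟩ := proj_surj hJ x
  obtain ⟨b, rfl⟩ := proj_surj hJ y
  obtain ⟨c, rfl⟩ := proj_surj hJ z
  obtain ⟨j, hj, h⟩ := (proj_le hJ a b).1 h
  change proj hJ a * proj hJ c ≤ proj hJ b * proj hJ c
  rw [← map_mul, ← map_mul, proj_le]
  refine ⟨c⁻¹ * j * c, hJ.conj j c hj, ?_⟩
  calc a * c ≤ b * j * c := mul_le_mul_left h c
      _ = b * c * (c⁻¹ * j * c) := by group⟩

theorem proj_sup (hJ : IsLIdeal J) (a b : L) : proj hJ (a ⊔ b) = proj hJ a ⊔ proj hJ b := by
  apply le_antisymm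
  · obtain ⟨c, hc⟩ := proj_surj hJ (proj hJ a ⊔ proj hJ b)
    rw [← hc]
    have h1 : proj hJ a ≤ proj hJ c := by rw [hc]; exact le_sup_left
    have h2 : proj hJ b ≤ proj hJ c := by rw [hc]; exact le_sup_right
    obtain ⟨j, hj, h1⟩ := (proj_le hJ a c).1 h1
    obtain ⟨k, hk, h2⟩ := (proj_le hJ b c).1 h2
    rw [proj_le]
    exact ⟨j ⊔ k, hJ.sup_mem hj hk, sup_le (h1.trans (mul_le_mul_right le_sup_left _))
      (h2.trans (mul_le_mul_right le_sup_right _))⟩
  · apply sup_le
    · rw [proj_le]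
      exact ⟨1, J.one_mem, by rw [mul_one]; exact le_sup_left⟩
    · rw [proj_le]
      exact ⟨1, J.one_mem, by rw [mul_one]; exact le_sup_right⟩

theorem proj_inf (hJ : IsLIdeal J) (a b : L) : proj hJ (a ⊓ b) = proj hJ a ⊓ proj hJ b := by
  have e : a ⊓ b = (a⁻¹ ⊔ b⁻¹)⁻¹ := by rw [inv_sup, inv_inv, inv_inv]
  rw [e, map_inv, proj_sup, inv_sup, map_inv, map_inv, inv_inv, inv_inv]

theorem isLHom_proj (hJ : IsLIdeal J) : IsLHom (proj hJ) :=
  fun a b => ⟨proj_sup hJ a b, proj_inf hJ a b⟩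

theorem IsLHom.mono {H K : Type u} [Group H] [Lattice H] [Group K] [Lattice K] {θ : H →* K}
    (hθ : IsLHom θ) {a b : H} (h : a ≤ b) : θ a ≤ θ b := by
  have h1 := (hθ a b).1
  rw [sup_eq_right.2 h] at h1
  rw [h1]
  exact le_sup_left

theorem ker_isLIdeal {K : Type u} [Group K] [Lattice K] {θ : L →* K} (hθ : IsLHom θ) :
    IsLIdeal θ.ker where
  conj a h ha := by
    rw [MonoidHom.mem_ker] at ha ⊢
    rw [map_mul, map_mul, ha, mul_one, map_inv, inv_mul_cancel]
  conv a b ha h1 h2 := by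
    rw [MonoidHom.mem_ker] at ha ⊢
    apply le_antisymm
    · rw [← ha]; exact hθ.mono h2
    · rw [← map_one θ]; exact hθ.mono h1
  sup a ha := by
    rw [MonoidHom.mem_ker] at ha ⊢
    rw [(hθ a 1).1, ha, map_one, sup_idem]

variable {G : Type u} [Group G] [PartialOrder G] [MulLeftMono G] [MulRightMono G]

theorem emb_of_good {φ : G →* L} (hφ : IsEmb φ) (hJ : Good φ J) :
    IsEmb ((proj hJ.1).comp φ) := by
  intro a b
  change proj hJ.1 (φ a) ≤ proj hJ.1 (φ b) ↔ _
  rw [proj_le]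
  constructor
  · rintro ⟨j, hj, h⟩
    have h4 : φ (b⁻¹ * a) ≤ j := by
      have := mul_le_mul_right h (φ b)⁻¹
      rw [inv_mul_cancel_left] at this
      rwa [map_mul, map_inv]
    have h5 : b⁻¹ * a ≤ 1 := hJ.2 _ j hj h4
    have h6 := mul_le_mul_right h5 b
    rwa [mul_inv_cancel_left, mul_one] at h6
  · intro h
    exact ⟨1, J.one_mem, by rw [mul_one]; exact (hφ a b).2 h⟩

theorem essential_of_maximal {φ : G →* L} (hJ : Maximal (Good φ) J) :
    Essential ((proj hJ.prop.1).comp φ) := by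
  intro K _ _ _ _ θ hθ hemb
  have hκ : IsLHom (θ.comp (proj hJ.prop.1)) := by
    intro a b
    constructor
    · rw [MonoidHom.comp_apply, proj_sup, (hθ _ _).1]; rfl
    · rw [MonoidHom.comp_apply, proj_inf, (hθ _ _).2]; rfl
  have hle1 : J ≤ (θ.comp (proj hJ.prop.1)).ker := by
    intro x hx
    rw [MonoidHom.mem_ker, MonoidHom.comp_apply, (proj_eq_one hJ.prop.1 x).2 hx, map_one]
  have hgood : Good φ (θ.comp (proj hJ.prop.1)).ker := by
    refine ⟨ker_isLIdeal hκ, fun g j hj hle => ?_⟩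
    rw [MonoidHom.mem_ker] at hj
    have h1 := hκ.mono hle
    rw [hj] at h1
    apply (hemb g 1).1
    rw [map_one]
    exact h1
  have hle : (θ.comp (proj hJ.prop.1)).ker ≤ J := hJ.le_of_ge hgood hle1
  rw [injective_iff_map_eq_one]
  intro x hx
  obtain ⟨a, rfl⟩ := proj_surj _ x
  rw [proj_eq_one]
  exact hle (MonoidHom.mem_ker.2 hx)

theorem good_bot {φ : G →* L} (hφ : IsEmb φ) : Good φ (⊥ : Subgroup L) := by
  refine ⟨⟨?_, ?_, ?_⟩, ?_⟩
  · intro a h ha
    rw [Subgroup.mem_bot] at ha ⊢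
    rw [ha]; group
  · intro a b ha h1 h2
    rw [Subgroup.mem_bot] at ha ⊢
    rw [ha] at h2
    exact le_antisymm h2 h1
  · intro a ha
    rw [Subgroup.mem_bot] at ha ⊢
    rw [ha, sup_idem]
  · intro g j hj h
    rw [Subgroup.mem_bot] at hj
    rw [hj, ← map_one φ] at h
    exact (hφ _ _).1 h

theorem preserves_of_essential {φ : G →* L} (hφ : IsEmb φ) (he : Essential φ)
    (hd : ∀ h : L, Dom φ h) : Preserves φ := by
  have hmax : Maximal (Good φ) (⊥ : Subgroup L) := by
    refine ⟨good_bot hφ, fun J hJ _ x hx => ?_⟩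
    have hinj := he (Quo hJ.1) (proj hJ.1) (isLHom_proj hJ.1) (emb_of_good hφ hJ)
    have h1 : proj hJ.1 x = 1 := (proj_eq_one hJ.1 x).2 hx
    rw [Subgroup.mem_bot]
    exact hinj (h1.trans (map_one _).symm)
  have hsup : ∀ (S : Set G) (s : G), IsLUB S s → IsLUB (φ '' S) (φ s) := by
    intro S s hs
    constructor
    · rintro _ ⟨a, ha, rfl⟩
      exact (hφ a s).2 (hs.1 ha)
    · intro f hf
      obtain ⟨j, hj, h⟩ := sup_preserved hφ hd hmax hs f (fun a ha =>
        ⟨1, Subgroup.one_mem _, by rw [mul_one]; exact hf ⟨a, ha, rfl⟩⟩)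
      rw [Subgroup.mem_bot] at hj
      rwa [hj, mul_one] at h
  refine ⟨hsup, fun S s hs => ?_⟩
  have h1 : IsLUB S⁻¹ s⁻¹ := isLUB_inv'.2 hs
  have h2 := hsup _ _ h1
  have h3 : φ '' S⁻¹ = (φ '' S)⁻¹ := by
    ext x
    constructor
    · rintro ⟨a, ha, rfl⟩
      exact ⟨a⁻¹, ha, map_inv φ a⟩
    · rintro ⟨a, ha, hax⟩
      exact ⟨a⁻¹, by simpa using ha, by rw [map_inv, hax, inv_inv]⟩
  rw [h3, map_inv] at h2
  exact isLUB_inv'.1 h2

theorem dom_of_generates {φ : G →* L} (hg : Generates φ) (h : L) : Dom φ h := by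
  have h1 := hg (domSubgroup φ) (fun a ha b hb => domSubgroup_sup φ ha hb)
    (fun g => ⟨Dom.base φ g, by rw [← map_inv]; exact Dom.base φ g⁻¹⟩)
  have h2 : h ∈ domSubgroup φ := by rw [h1]; exact Subgroup.mem_top h
  exact h2.1

theorem dom_of_comm {φ : G →* L} (hc : ∀ a b : L, a * b = b * a) (h : L) : Dom φ h := by
  refine ⟨[1], fun x _ => ?_⟩
  rw [List.map_cons, List.map_nil, List.prod_cons, List.prod_nil, map_one, inv_one, one_mul,
    mul_one, mul_one, hc h⁻¹ x, inv_mul_cancel_right]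

end Quotients

/-! ### Lattice-ordered subgroups -/

section Subs

variable {L : Type u} [Group L] [Lattice L] [MulLeftMono L] [MulRightMono L] {T : Subgroup L}

/-- A lattice-ordered subgroup, as a type. -/
def Sub (_ : ∀ a ∈ T, ∀ b ∈ T, a ⊔ b ∈ T) : Type u := T

theorem inf_mem (hT : ∀ a ∈ T, ∀ b ∈ T, a ⊔ b ∈ T) {a b : L} (ha : a ∈ T) (hb : b ∈ T) :
    a ⊓ b ∈ T := by
  have e : a ⊓ b = (a⁻¹ ⊔ b⁻¹)⁻¹ := by rw [inv_sup, inv_inv, inv_inv]
  rw [e]
  exact T.inv_mem (hT _ (T.inv_mem ha) _ (T.inv_mem hb))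

instance (hT : ∀ a ∈ T, ∀ b ∈ T, a ⊔ b ∈ T) : Group (Sub hT) := inferInstanceAs (Group T)

instance (hT : ∀ a ∈ T, ∀ b ∈ T, a ⊔ b ∈ T) : Lattice (Sub hT) :=
  Subtype.lattice (fun {a b} ha hb => hT a ha b hb) (fun {a b} ha hb => inf_mem hT ha hb)

instance (hT : ∀ a ∈ T, ∀ b ∈ T, a ⊔ b ∈ T) : MulLeftMono (Sub hT) := ⟨fun c a b hab => by
  change (c.1 : L) * a.1 ≤ c.1 * b.1
  exact mul_le_mul_right (show a.1 ≤ b.1 from hab) _⟩

instance (hT : ∀ a ∈ T, ∀ b ∈ T, a ⊔ b ∈ T) : MulRightMono (Sub hT) := ⟨fun c a b hab => by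
  change (a.1 : L) * c.1 ≤ b.1 * c.1
  exact mul_le_mul_left (show a.1 ≤ b.1 from hab) _⟩

variable {G : Type u} [Group G] [PartialOrder G] [MulLeftMono G] [MulRightMono G]

/-- The generated lattice-ordered subgroup. -/
def lspan (φ : G →* L) : Subgroup L :=
  sInf {T | (∀ a ∈ T, ∀ b ∈ T, a ⊔ b ∈ T) ∧ ∀ g, φ g ∈ T}

theorem isLSpan_lspan (φ : G →* L) : IsLSpan φ (lspan φ) := by
  refine ⟨fun a ha b hb => ?_, fun g => ?_, fun T' h1 h2 => sInf_le ⟨h1, h2⟩⟩
  · rw [lspan, Subgroup.mem_sInf] at ha hb ⊢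
    exact fun T hT => hT.1 a (ha T hT) b (hb T hT)
  · rw [lspan, Subgroup.mem_sInf]
    exact fun T hT => hT.2 g

/-- The map to the generated lattice-ordered subgroup. -/
def toSub (φ : G →* L) (hT : ∀ a ∈ T, ∀ b ∈ T, a ⊔ b ∈ T) (hm : ∀ g, φ g ∈ T) : G →* Sub hT :=
  φ.codRestrict T hm

theorem generates_toSub (φ : G →* L) (h : IsLSpan φ T) : Generates (toSub φ h.1 h.2.1) := by
  intro S hS hg
  have h1 : T ≤ Subgroup.map T.subtype (show Subgroup T from S) := by
    apply h.2.2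
    · rintro _ ⟨a, ha, rfl⟩ _ ⟨b, hb, rfl⟩
      exact ⟨@max (Sub h.1) _ a b, hS a ha b hb, rfl⟩
    · intro g
      exact ⟨toSub φ h.1 h.2.1 g, hg g, rfl⟩
  rw [eq_top_iff]
  intro x _
  obtain ⟨y, hy, hyx⟩ := h1 x.2
  have : y = x := Subtype.ext hyx
  rw [← this]
  exact hy

/-- Every order-embedding has a tight quotient. -/
theorem exists_tight {φ : G →* L} (hφ : IsEmb φ) :
    ∃ (H : Type u) (_ : Group H) (_ : Lattice H) (_ : MulLeftMono H) (_ : MulRightMono H)
      (ψ : G →* H) (T : Subgroup L) (π : T →* H), Tight ψ ∧ IsLSpan φ T ∧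
      Function.Surjective π ∧ (∀ a b c : T, (c : L) = (a : L) ⊔ b → π c = π a ⊔ π b) ∧
      (∀ a b c : T, (c : L) = (a : L) ⊓ b → π c = π a ⊓ π b) ∧
      (∀ (g : G) (t : T), (t : L) = φ g → ψ g = π t) := by
  have hs := isLSpan_lspan φ
  let φ' : G →* Sub hs.1 := toSub φ hs.1 hs.2.1
  have hφ' : IsEmb φ' := fun a b => hφ a b
  have hgen : Generates φ' := generates_toSub φ hs
  obtain ⟨J, hJ⟩ := exists_maximal_good φ' hφ'
  have hemb : IsEmb ((proj hJ.prop.1).comp φ') := emb_of_good hφ' hJ.prop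
  have hess : Essential ((proj hJ.prop.1).comp φ') := essential_of_maximal hJ
  have hgen' : Generates ((proj hJ.prop.1).comp φ') := by
    intro S hS hg
    have h1 := hgen (S.comap (proj hJ.prop.1)) (fun a ha b hb => by
      rw [Subgroup.mem_comap] at ha hb ⊢
      rw [proj_sup]
      exact hS _ ha _ hb) (fun g => hg g)
    rw [eq_top_iff]
    intro x _
    obtain ⟨y, rfl⟩ := proj_surj hJ.prop.1 x
    have h2 : y ∈ S.comap (proj hJ.prop.1) := by rw [h1]; exact Subgroup.mem_top y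
    exact h2
  refine ⟨Quo hJ.prop.1, inferInstance, inferInstance, inferInstance, inferInstance,
    (proj hJ.prop.1).comp φ', lspan φ, (proj hJ.prop.1 : Sub hs.1 →* Quo hJ.prop.1),
    ⟨hemb, hess, hgen', preserves_of_essential hemb hess (dom_of_generates hgen')⟩, hs,
    proj_surj hJ.prop.1, fun a b c h => ?_, fun a b c h => ?_, fun g t h => ?_⟩
  · have e : c = ((show Sub hs.1 from a) ⊔ (show Sub hs.1 from b) : Sub hs.1) := Subtype.ext h
    rw [e]
    exact proj_sup hJ.prop.1 _ _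
  · have e : c = ((show Sub hs.1 from a) ⊓ (show Sub hs.1 from b) : Sub hs.1) := Subtype.ext h
    rw [e]
    exact proj_inf hJ.prop.1 _ _
  · have e : t = φ' g := Subtype.ext h
    rw [e]
    rfl

/-- Identities pass to homomorphic images of lattice-ordered subgroups. -/
theorem eval_lift {H : Type u} [Group H] [Lattice H] {T : Subgroup L}
    (hT : ∀ a ∈ T, ∀ b ∈ T, a ⊔ b ∈ T) (π : T →* H)
    (h1 : ∀ a b c : T, (c : L) = (a : L) ⊔ b → π c = π a ⊔ π b)
    (h2 : ∀ a b c : T, (c : L) = (a : L) ⊓ b → π c = π a ⊓ π b) (y : ℕ → T) (t : LTerm) :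
    ∃ c : T, (c : L) = t.eval (fun n => (y n : L)) ∧ π c = t.eval (fun n => π (y n)) := by
  induction t with
  | var n => exact ⟨y n, rfl, rfl⟩
  | one => exact ⟨1, rfl, map_one π⟩
  | mul s t hs ht =>
    obtain ⟨a, ha, ha'⟩ := hs
    obtain ⟨b, hb, hb'⟩ := ht
    exact ⟨a * b, by rw [Subgroup.coe_mul, ha, hb]; rfl, by rw [map_mul, ha', hb']; rfl⟩
  | inv s hs =>
    obtain ⟨a, ha, ha'⟩ := hs
    exact ⟨a⁻¹, by rw [Subgroup.coe_inv, ha]; rfl, by rw [map_inv, ha']; rfl⟩
  | sup s t hs ht =>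
    obtain ⟨a, ha, ha'⟩ := hs
    obtain ⟨b, hb, hb'⟩ := ht
    refine ⟨⟨(a : L) ⊔ b, hT _ a.2 _ b.2⟩, ?_, ?_⟩
    · change (a : L) ⊔ b = _
      rw [ha, hb]; rfl
    rw [h1 a b _ rfl, ha', hb']; rfl
  | inf s t hs ht =>
    obtain ⟨a, ha, ha'⟩ := hs
    obtain ⟨b, hb, hb'⟩ := ht
    refine ⟨⟨(a : L) ⊓ b, inf_mem hT a.2 b.2⟩, ?_, ?_⟩
    · change (a : L) ⊓ b = _
      rw [ha, hb]; rfl
    rw [h2 a b _ rfl, ha', hb']; rfl

theorem satisfies_of {H : Type u} [Group H] [Lattice H] {T : Subgroup L}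
    (hT : ∀ a ∈ T, ∀ b ∈ T, a ⊔ b ∈ T) (π : T →* H) (hπ : Function.Surjective π)
    (h1 : ∀ a b c : T, (c : L) = (a : L) ⊔ b → π c = π a ⊔ π b)
    (h2 : ∀ a b c : T, (c : L) = (a : L) ⊓ b → π c = π a ⊓ π b) {s t : LTerm}
    (h : Satisfies L s t) : Satisfies H s t := by
  intro x
  choose y hy using fun n => hπ (x n)
  obtain ⟨c, hc, hc'⟩ := eval_lift hT π h1 h2 y s
  obtain ⟨d, hd, hd'⟩ := eval_lift hT π h1 h2 y t
  have hxy : (fun n => π (y n)) = x := funext hy
  rw [hxy] at hc' hd'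
  have : c = d := Subtype.ext (by rw [hc, hd, h])
  rw [← hc', ← hd', this]

end Subs

/-! ### Intersections of two-sided orders -/

section Bi

variable {G : Type u} [Group G]

/-- `G` with a two-sided order. -/
def GO {r : G → G → Prop} (_ : IsBiOrder r) : Type u := G

instance {r : G → G → Prop} (h : IsBiOrder r) : Group (GO h) := inferInstanceAs (Group G)

noncomputable instance {r : G → G → Prop} (h : IsBiOrder r) : LinearOrder (GO h) where
  le := r
  le_refl := h.right.refl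
  le_trans := h.right.trans
  le_antisymm := h.right.antisymm
  le_total := h.right.total
  toDecidableLE := Classical.decRel _

instance {r : G → G → Prop} (h : IsBiOrder r) : MulLeftMono (GO h) :=
  ⟨fun c a b hab => h.mul_left a b c hab⟩

instance {r : G → G → Prop} (h : IsBiOrder r) : MulRightMono (GO h) :=
  ⟨fun c a b hab => h.right.mul_right a b c hab⟩

/-- The product of the totally ordered groups. -/
def PG {F : Set (G → G → Prop)} (hF : ∀ r ∈ F, IsBiOrder r) : Type u :=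
  ∀ r : F, GO (hF r.1 r.2)

variable {F : Set (G → G → Prop)} (hF : ∀ r ∈ F, IsBiOrder r)

instance : Group (PG hF) := inferInstanceAs (Group (∀ r : F, GO (hF r.1 r.2)))

noncomputable instance : Lattice (PG hF) := inferInstanceAs (Lattice (∀ r : F, GO (hF r.1 r.2)))

instance : MulLeftMono (PG hF) := ⟨fun c _ _ hab i => mul_le_mul_right (hab i) (c i)⟩

instance : MulRightMono (PG hF) := ⟨fun c _ _ hab i => mul_le_mul_left (hab i) (c i)⟩

/-- The diagonal. -/
def diag : G →* PG hF where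
  toFun g := fun _ => g
  map_one' := rfl
  map_mul' _ _ := rfl

/-- The identity of representable lattice-ordered groups. -/
def repTerm : LTerm :=
  .inf (.sup (.var 0) .one) (.mul (.mul (.inv (.var 1)) (.sup (.inv (.var 0)) .one)) (.var 1))

theorem rep_PG : Satisfies (PG hF) repTerm .one := by
  intro x
  funext i
  change (x 0 i ⊔ 1) ⊓ ((x 1 i)⁻¹ * ((x 0 i)⁻¹ ⊔ 1) * x 1 i) = 1
  rcases le_total (x 0 i) 1 with h | h
  · rw [sup_eq_right.2 h, inf_eq_left]
    have h1 : (1 : GO (hF i.1 i.2)) ≤ (x 0 i)⁻¹ ⊔ 1 := le_sup_right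
    exact one_le_conj h1 (x 1 i)
  · have h1 : (x 0 i)⁻¹ ≤ 1 := inv_le_one'.2 h
    rw [sup_eq_right.2 h1, mul_one, inv_mul_cancel, inf_eq_right]
    exact le_sup_right

end Bi

/-- `ψ : G → H` is the composite of `φ : G → L` and of a surjective homomorphism of lattice-ordered
groups `π : T → H`, where `T` is the lattice-ordered subgroup of `L` generated by the image of `φ`. -/
def IsImageOf {G L H : Type u} [Group G] [Group L] [Lattice L] [Group H] [Lattice H] (φ : G →* L)
    (ψ : G →* H) : Prop :=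
  ∃ (T : Subgroup L) (π : T →* H), IsLSpan φ T ∧ Function.Surjective π ∧
    (∀ a b c : T, (c : L) = (a : L) ⊔ b → π c = π a ⊔ π b) ∧
    (∀ a b c : T, (c : L) = (a : L) ⊓ b → π c = π a ⊓ π b) ∧
    (∀ (g : G) (t : T), (t : L) = φ g → ψ g = π t)

/-- All identities of `L` hold in `H`. -/
def InheritsIdentities (L H : Type u) [Group L] [Lattice L] [Group H] [Lattice H] : Prop :=
  ∀ s t : LTerm, Satisfies L s t → Satisfies H s t

/-- The identity characterising the representable lattice-ordered groups. -/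
def Representable (H : Type u) [Group H] [Lattice H] : Prop :=
  ∀ a b : H, (a ⊔ 1) ⊓ (b⁻¹ * (a⁻¹ ⊔ 1) * b) = 1

/-- All group identities of `G` hold in `H`. -/
def InheritsLaws (G H : Type u) [Group G] [Group H] : Prop :=
  ∀ w : FreeGroup ℕ, (∀ x : ℕ → G, FreeGroup.lift x w = 1) → ∀ x : ℕ → H, FreeGroup.lift x w = 1

/-- Essential order-embeddings preserve all existing suprema and infima. -/
def EssentialPreserve (G : Type u) [Group G] [PartialOrder G] : Prop :=
  ∀ (H : Type u) [Group H] [Lattice H] [MulLeftMono H] [MulRightMono H] (ψ : G →* H),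
    IsEmb ψ → Essential ψ → (Generates ψ ∨ ∀ a b : H, a * b = b * a) → Preserves ψ

/-- Every order-embedding has a tight image. -/
def TightImages (G : Type u) [Group G] [PartialOrder G] : Prop :=
  ∀ (L : Type u) [Group L] [Lattice L] [MulLeftMono L] [MulRightMono L] (φ : G →* L),
    IsEmb φ → ∃ (H : Type u) (_ : Group H) (_ : Lattice H) (_ : MulLeftMono H)
      (_ : MulRightMono H) (ψ : G →* H), Tight ψ ∧ IsImageOf φ ψ ∧ InheritsIdentities L H

/-- A tight embedding exists. -/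
def HasTight (G : Type u) [Group G] [PartialOrder G] : Prop :=
  ∃ (H : Type u) (_ : Group H) (_ : Lattice H) (_ : MulLeftMono H) (_ : MulRightMono H)
    (ψ : G →* H), Tight ψ

/-- A tight embedding in a representable lattice-ordered group with all group identities of `G`
exists. -/
def HasRepresentableTight (G : Type u) [Group G] [PartialOrder G] : Prop :=
  ∃ (H : Type u) (_ : Group H) (_ : Lattice H) (_ : MulLeftMono H) (_ : MulRightMono H)
    (ψ : G →* H), Tight ψ ∧ Representable H ∧ InheritsLaws G H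

theorem result (G : Type u) [Group G] [PartialOrder G] [MulLeftMono G] [MulRightMono G] :
    EssentialPreserve G ∧ TightImages G ∧ (IsIntersectionOfRightOrders G → HasTight G) ∧
    ∀ F : Set (G → G → Prop), (∀ r ∈ F, IsBiOrder r) → (∀ a b : G, a ≤ b ↔ ∀ r ∈ F, r a b) →
      HasRepresentableTight G := by
  refine ⟨fun H _ _ _ _ ψ h1 h2 h3 => ?_, fun L _ _ _ _ φ hφ => ?_, fun h => ?_,
    fun F hF hle => ?_⟩
  · rcases h3 with h3 | h3
    · exact preserves_of_essential h1 h2 (dom_of_generates h3)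
    · exact preserves_of_essential h1 h2 (dom_of_comm h3)
  · obtain ⟨H, i1, i2, i3, i4, ψ, T, π, a1, a2, a3, a4, a5, a6⟩ := exists_tight hφ
    exact ⟨H, i1, i2, i3, i4, ψ, a1, ⟨T, π, a2, a3, a4, a5, a6⟩,
      fun s t h => satisfies_of a2.1 π a3 a4 a5 h⟩
  · obtain ⟨L, _, _, _, _, φ, hφ⟩ := exists_embedding h
    obtain ⟨H, i1, i2, i3, i4, ψ, T, π, a1, -⟩ := exists_tight (φ := φ) hφ
    exact ⟨H, i1, i2, i3, i4, ψ, a1⟩
  · have hemb : IsEmb (diag hF) := by
      intro a b
      rw [hle]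
      exact ⟨fun h r hr => h ⟨r, hr⟩, fun h r => h r.1 r.2⟩
    obtain ⟨H, i1, i2, i3, i4, ψ, T, π, a1, a2, a3, a4, a5, a6⟩ := exists_tight hemb
    refine ⟨H, i1, i2, i3, i4, ψ, a1, fun a b => ?_, fun w hw x => ?_⟩
    · have h1 := satisfies_of a2.1 π a3 a4 a5 (rep_PG hF) (fun n => if n = 0 then a else b)
      exact h1
    · choose y hy using fun n => a3 (x n)
      have e1 : FreeGroup.lift x = π.comp (FreeGroup.lift y) := by
        ext n
        simp [hy]
      have e2 : (FreeGroup.lift y w : T) = 1 := by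
        apply Subtype.ext
        funext i
        have e3 : ((Pi.evalMonoidHom (fun r : F => GO (hF r.1 r.2)) i).comp
            (T.subtype.comp (FreeGroup.lift y))) =
            FreeGroup.lift (fun n => ((y n : PG hF) i : GO (hF i.1 i.2))) := by
          ext n
          have e5 : FreeGroup.lift y (FreeGroup.of n) = y n := by simp
          change ((FreeGroup.lift y (FreeGroup.of n) : T) : PG hF) i = _
          rw [e5]
          simp
        have e4 := DFunLike.congr_fun e3 w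
        refine e4.trans ?_
        exact hw (fun n => (y n : PG hF) i)
      rw [e1, MonoidHom.comp_apply, e2, map_one]

end Pool.Agent.Results.MP_98d06d_al.EssentialEmbeddings
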